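import Pool.Agent.N13.EU.Last
import Pool.Agent.R703.MO.Small

/-!
# Few vertices: `b_i(W_A) = 0` for `i > N - 2 n`

By helper13.
-/

set_option autoImplicit false
set_option linter.unusedSectionVars false

namespace Pool.Agent.N13.VB

open Pool.Agent.W907.SG Pool.Agent.W907.SM Pool.Agent.TH652.Above Pool.Agent.R703.CW
open Pool.Agent.Y132.SI Pool.Agent.N13.EU

/-- a homology sphere of positive length is not a cone -/
theorem no_cone {V : Type} [Fintype V] [LinearOrder V] {G : SimpleGraph V} {n : ℕ} (hS : HSph n G) (v : V)
    (h : ∀ w, w ≠ v → G.Adj v w) : False := by
  have h1 := hS ∅ (by simp) n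
  rw [Finset.card_empty, add_zero, if_pos rfl, Pool.Agent.R703.MO.beta_cone (u := v)
    (by intro u hu; exact absurd hu (Finset.notMem_empty u)) (fun w _ hw => h w hw) (fun m => rfl)] at h1
  exact zero_ne_one h1

theorem lk_one {V : Type} [LinearOrder V] (G : SimpleGraph V) (v : V) : lk G {v} = G.neighborSet v := by
  ext x
  constructor
  · intro h
    exact (h v (Finset.mem_singleton_self _)).symm
  · intro h u hu
    rw [Finset.mem_singleton] at hu
    subst hu
    exact SimpleGraph.Adj.symm h

theorem main : ∀ (n : ℕ) (V : Type) [Fintype V] [LinearOrder V] (G : SimpleGraph V), HSph n G →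
    2 * n ≤ Fintype.card V ∧
      ∀ (A : Set V) (i : ℕ), Fintype.card V < 2 * n + i → LV (G.induce A) i := by
  classical
  intro n
  induction n with
  | zero =>
    intro V _ _ G hS
    refine ⟨by omega, fun A i hi => ?_⟩
    have hV : IsEmpty V := by
      by_contra h
      rw [not_isEmpty_iff] at h
      obtain ⟨v⟩ := h
      have := card_le_of_hsph hS {v} (by simp)
      rw [Finset.card_singleton] at this
      omega
    have hA : A = ∅ := Set.eq_empty_of_isEmpty A
    rw [hA]
    exact lv_empty G i (by omega)
  | succ n ih =>
    intro V _ _ G hS
    have hlink : ∀ v : V, HSph n (G.induce (lk G {v})) := by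
      intro v
      have := hsph_link hS {v} (by simp)
      rwa [Finset.card_singleton, Nat.add_sub_cancel] at this
    have hcard : ∀ v : V, Fintype.card ↥(lk G {v}) = (G.neighborSet v).ncard := by
      intro v
      rw [← Nat.card_eq_fintype_card, Nat.card_coe_set_eq, lk_one]
    have hnon : ∀ v : V, ∃ w, w ≠ v ∧ ¬ G.Adj v w := by
      intro v
      by_contra h
      push Not at h
      exact no_cone hS v h
    have hbound : 2 * (n + 1) ≤ Fintype.card V := by
      obtain ⟨T, _, _, hT⟩ := exists_facet hS ∅ (by simp)
      have hne : T.Nonempty := Finset.card_pos.1 (by omega)
      obtain ⟨v, _⟩ := hne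
      obtain ⟨w, hw1, hw2⟩ := hnon v
      have h1 := (ih _ (G.induce (lk G {v})) (hlink v)).1
      rw [hcard] at h1
      have h2 : (insert v (insert w (G.neighborSet v)) : Set V).ncard = (G.neighborSet v).ncard + 2 := by
        rw [Set.ncard_insert_of_notMem, Set.ncard_insert_of_notMem (show w ∉ G.neighborSet v from hw2)]
        rintro (h | h)
        · exact hw1 h.symm
        · exact G.loopless.irrefl _ h
      have h3 := Set.ncard_le_card (insert v (insert w (G.neighborSet v)) : Set V)
      rw [h2, Nat.card_eq_fintype_card] at h3
      omega
    refine ⟨hbound, ?_⟩
    have key : ∀ (k : ℕ) (A : Set V) (i : ℕ), A.ncard = k → Fintype.card V < 2 * (n + 1) + i →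
        LV (G.induce A) i := by
      intro k
      induction k with
      | zero =>
        intro A i hA hi
        rw [Set.ncard_eq_zero] at hA
        rw [hA]
        exact lv_empty G i (by omega)
      | succ k ihk =>
        intro A i hA hi
        obtain ⟨v, hv⟩ : A.Nonempty := by
          rw [← Set.ncard_pos]
          omega
        have h1 : LV (G.induce (A \ {v})) i := ihk (A \ {v}) i (by
          rw [Set.ncard_sdiff_singleton_of_mem hv, hA]
          omega) hi
        by_cases hc : (G.neighborSet v).ncard < 2 * n + (i - 1)
        · refine lv_add G A v hv i h1 fun j hj => ?_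
          have h2 := (ih _ (G.induce (lk G {v})) (hlink v)).2 (Subtype.val ⁻¹' A) j (by
            rw [hcard]
            omega)
          rw [lv_sub] at h2
          refine lv_set ?_ h2
          ext x
          constructor
          · rintro ⟨hx1, hx2⟩
            exact ⟨⟨x, by rw [lk_one]; exact hx2⟩, hx1, rfl⟩
          · rintro ⟨⟨x', hxl⟩, hx', rfl⟩
            have hxl' := hxl
            rw [lk_one] at hxl'
            exact ⟨hx', hxl'⟩
        · obtain ⟨w, hw1, hw2⟩ := hnon v
          -- the other vertices are neighbours of `v`
          have hcov : ∀ x, x = v ∨ x = w ∨ G.Adj v x := by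
            intro x
            by_contra h
            push Not at h
            have h2 : (insert x (insert v (insert w (G.neighborSet v))) : Set V).ncard =
                (G.neighborSet v).ncard + 3 := by
              rw [Set.ncard_insert_of_notMem, Set.ncard_insert_of_notMem, Set.ncard_insert_of_notMem (show w ∉ G.neighborSet v from hw2)]
              · rintro (h' | h')
                · exact hw1 h'.symm
                · exact G.loopless.irrefl _ h'
              · rintro (h' | h' | h')
                · exact h.1 h'
                · exact h.2.1 h'
                · exact h.2.2 h'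
            have h3 := Set.ncard_le_card (insert x (insert v (insert w (G.neighborSet v))) : Set V)
            rw [h2, Nat.card_eq_fintype_card] at h3
            omega
          -- `w` is adjacent to the neighbours of `v`
          have hw : ∀ x, G.Adj v x → G.Adj w x := by
            intro x hx
            by_contra hwx
            have hvl : v ∈ lk G {x} := by
              rw [lk_one]
              exact hx.symm
            refine no_cone (hlink x) ⟨v, hvl⟩ ?_
            rintro ⟨y, hyl⟩ hy
            have hy2 : G.Adj x y := by
              have := hyl
              rwa [lk_one] at this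
            rcases hcov y with h | h | h
            · exact absurd (Subtype.ext h) hy
            · exact absurd (h ▸ hy2).symm hwx
            · exact h
          by_cases hwA : w ∈ A
          · refine lsusp ↥A _ ⟨v, hv⟩ ⟨w, hwA⟩ i (fun h => hw1 (congrArg Subtype.val h).symm) hw2 ?_
            intro u hu1 hu2
            rcases hcov u.1 with h | h | h
            · exact absurd (Subtype.ext h) hu1
            · exact absurd (Subtype.ext h) hu2
            · exact ⟨h.symm, (hw u.1 h).symm⟩
          · have h2 := lv_cone G (A \ {v}) v (fun h => h.2 rfl) (fun a ha => by
              rcases hcov a with h | h | h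
              · exact absurd h ha.2
              · exact absurd (h ▸ ha.1) hwA
              · exact h) i h1
            refine lv_set ?_ h2
            ext x
            constructor
            · intro hx
              by_cases hxv : x = v
              · exact Or.inl hxv
              · exact Or.inr ⟨hx, hxv⟩
            · rintro (h | h)
              · rw [h]
                exact hv
              · exact h.1
    exact fun A i hi => key _ A i rfl hi

end Pool.Agent.N13.VB
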